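import Pool.Agent.H34.N6V.Targets

/-!
# Two quadrics: the norm of the quadratic character (row VNRM)
-/

set_option autoImplicit false

open Polynomial NumberField IsDedekindDomain Pool.Agent.H32.QC Pool.Agent.H34.N6
open Pool.Agent.H13.DEV Pool.Agent.H34.N6V

namespace Pool.Agent.H43.N6V

theorem prod_sign {T : Type} [Fintype T] (p : T → Prop) [DecidablePred p] :
    ∏ i, (if p i then (1 : ℤ) else -1) = if Even (Nat.card {i : T // ¬ p i}) then 1 else -1 := by
  classical
  have h1 : Nat.card {i : T // ¬ p i} = (Finset.univ.filter fun i => ¬ p i).card := by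
    rw [Nat.card_eq_fintype_card, Fintype.card_subtype]
  rw [Finset.prod_ite, Finset.prod_const_one, one_mul, Finset.prod_const, h1]
  split_ifs with h
  · exact h.neg_one_pow
  · exact (Nat.not_even_iff_odd.1 h).neg_one_pow

theorem resultant_monic {F : Type} [Field F] {f : F[X]} (g : F[X]) (hf : f.Monic) {m n : ℕ}
    (hm : f.natDegree = m) (hn : g.natDegree ≤ n) : f.resultant g m n = f.resultant g := by
  obtain ⟨l, rfl⟩ : ∃ l, n = g.natDegree + l := ⟨n - g.natDegree, by omega⟩
  subst hm
  rw [resultant_add_right_deg _ _ _ _ l le_rfl, hf.coeff_natDegree, one_pow, one_mul]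

theorem pf_NRM (hRSF : T_RSF) (hSQR : T_SQR) (hFBR : T_FBR) (hSQW : T_SQW) (hFF2 : T_FF2) :
    T_NRM := by
  classical
  intro k L _ _ _ _ _ P D e v hP hgen hgood
  obtain ⟨F, _, _, O, ρ, hR⟩ := hRSF k v
  have hinj : Function.Injective O.subtype := Subtype.coe_injective
  have hlift : ∀ Q : k[X], Int v Q → ∃ Q' : O[X], Q'.map O.subtype = Q := by
    intro Q hQ
    rw [← Polynomial.mem_lifts, Polynomial.lifts_iff_coeff_lifts]
    intro n
    exact ⟨⟨Q.coeff n, (hR.mem _).2 (hQ n)⟩, rfl⟩
  obtain ⟨P', hP'⟩ := hlift P hgood.intP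
  obtain ⟨D', hD'⟩ := hlift D hgood.intD
  obtain ⟨T, _, w, q, hw, hwv, hq, hprod, hdvd⟩ := hFBR k L P D e v F O ρ P' hP hgen hgood hR hP'
  -- the residue field has odd characteristic
  have h2 : (2 : F) ≠ 0 := by
    intro h
    have h3 : ρ 2 = 0 := by rw [map_ofNat]; exact h
    have h4 := (hR.ker 2).1 h3
    have h5 : ((2 : O) : k) = 2 := rfl
    rw [h5, hgood.two] at h4
    exact lt_irrefl _ h4
  -- the reductions are coprime
  have hcop : IsCoprime (P'.map ρ) (D'.map ρ) := by
    obtain ⟨a, b, ha, hb, hab⟩ := hgood.cop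
    obtain ⟨a', ha'⟩ := hlift a ha
    obtain ⟨b', hb'⟩ := hlift b hb
    have h3 : a' * P' + b' * D' = 1 := by
      apply Polynomial.map_injective O.subtype hinj
      rw [Polynomial.map_add, Polynomial.map_mul, Polynomial.map_mul, ha', hb', hP', hD', hab,
        Polynomial.map_one]
    refine ⟨a'.map ρ, b'.map ρ, ?_⟩
    rw [← Polynomial.map_mul, ← Polynomial.map_mul, ← Polynomial.map_add, h3, Polynomial.map_one]
  have hnd : ∀ i, ¬ q i ∣ D'.map ρ := by
    intro i hi
    have h3 : q i ∣ P'.map ρ := by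
      rw [hprod]
      exact Finset.dvd_prod_of_mem q (Finset.mem_univ i)
    exact (hq i).2.not_isUnit (hcop.isUnit_of_dvd' h3 hi)
  -- the product of the signs
  have hpsi : psi D e v = ∏ i, if IsSquare (ic (w i) (aeval e D)) then (1 : ℤ) else -1 := by
    unfold psi
    have h3 : ∀ u : FPl L, (∏ᶠ (_ : u.under (𝓞 k) = v),
        (if IsSquare (ic u (aeval e D)) then (1 : ℤ) else -1)) =
        ∏ᶠ (_ : u ∈ Set.range w), (if IsSquare (ic u (aeval e D)) then (1 : ℤ) else -1) := by
      intro u
      have h4 : (u.under (𝓞 k) = v) = (u ∈ Set.range w) := propext (hwv u)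
      rw [h4]
    rw [finprod_congr h3, finprod_mem_range hw, finprod_eq_prod_of_fintype]
  have hsq : ∀ i, (IsSquare (ic (w i) (aeval e D)) ↔ SqMod (q i) (D'.map ρ)) := by
    intro i
    have hv : (w i).under (𝓞 k) = v := (hwv (w i)).2 ⟨i, rfl⟩
    subst hv
    exact hSQW k L P D e (w i) F O ρ D' (q i) hP hgen hgood hR hD' (hdvd i)
  have hsign : psi D e v = if Even (Nat.card {i : T // ¬ SqMod (q i) (D'.map ρ)}) then 1
      else -1 := by
    rw [hpsi, ← prod_sign]
    exact Finset.prod_congr rfl fun i _ => by simp only [hsq i]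
  have hFF := hFF2 F T h2 q (D'.map ρ) fun i => ⟨(hq i).1, (hq i).2, hnd i⟩
  -- the resultants
  have hP'm : P'.Monic := Polynomial.monic_of_injective hinj (by rw [hP']; exact hP)
  have hdeg : P'.natDegree = P.natDegree := by
    rw [← hP', Polynomial.natDegree_map_eq_of_injective hinj]
  have hdegD : D'.natDegree = D.natDegree := by
    rw [← hD', Polynomial.natDegree_map_eq_of_injective hinj]
  set r : O := P'.resultant D' P.natDegree D.natDegree with hr
  have hr1 : ((r : O) : k) = P.resultant D := by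
    have h3 := resultant_map_map P' D' P.natDegree D.natDegree O.subtype
    rw [hP', hD'] at h3
    exact h3.symm
  have hr2 : ρ r = (P'.map ρ).resultant (D'.map ρ) := by
    have h3 := resultant_map_map P' D' P.natDegree D.natDegree ρ
    rw [← h3]
    apply resultant_monic _ (hP'm.map ρ)
    · rw [hP'm.natDegree_map, hdeg]
    · rw [← hdegD]
      exact Polynomial.natDegree_map_le
  have hr0 : ρ r ≠ 0 := by
    rw [hr2]
    exact resultant_ne_zero _ _ hcop
  have hfin := hSQR k v F O ρ hR hgood.two r hr0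
  rw [hr1, hr2, hprod, hFF] at hfin
  rw [hsign]
  simp only [hfin]

end Pool.Agent.H43.N6V
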